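import Pool.Agent.H54.MG.Med
import Pool.Agent.H54.CV.V2

/-!
# [CCA MG2] The pocset of the half-spaces of a median graph

`HS X`: the half-spaces. `pr x`: the half-spaces which contain the vertex `x`. `count`: the number of the half-spaces which separate two
vertices is their distance. `principal`: every vertex of the pocset at finite distance from `pr x` is some `pr v`. `cube`: pairwise
crossing half-spaces give an isometric cube.
-/

set_option autoImplicit false

namespace Pool.Agent.H54.MG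

open Pool.Agent.H37.CC

variable {V : Type}

/-- the half-spaces of a median graph -/
def HS (X : SimpleGraph V) : Type := {h : Set V // ∃ a b, X.Adj a b ∧ h = W X a b ∧ hᶜ = W X b a}

variable {X : SimpleGraph V}

instance : PartialOrder (HS X) :=
  inferInstanceAs (PartialOrder {h : Set V // ∃ a b, X.Adj a b ∧ h = W X a b ∧ hᶜ = W X b a})

theorem hs_le {h k : HS X} : h ≤ k ↔ h.1 ⊆ k.1 := Iff.rfl

theorem hs_nonempty (h : HS X) : h.1.Nonempty := by
  obtain ⟨a, b, hab, h1, _⟩ := h.2
  rw [h1]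
  exact ⟨a, left_mem_W hab⟩

instance : Poc (HS X) where
  st h := ⟨h.1ᶜ, by
    obtain ⟨a, b, hab, h1, h2⟩ := h.2
    exact ⟨b, a, hab.symm, h2, by rw [compl_compl]; exact h1⟩⟩
  st_st h := Subtype.ext (compl_compl h.1)
  st_le h := Set.compl_subset_compl.2 h
  not_le h := fun h1 => by
    obtain ⟨a, ha⟩ := hs_nonempty h
    exact h1 ha ha

theorem st_val (h : HS X) : (st h).1 = h.1ᶜ := rfl

/-- the half-spaces which contain a vertex -/
def pr (X : SimpleGraph V) (x : V) : Set (HS X) := {h | x ∈ h.1}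

theorem mem_pr {x : V} {h : HS X} : h ∈ pr X x ↔ x ∈ h.1 := Iff.rfl

theorem pr_vertex (x : V) : IsVertex (pr X x) where
  one _ := Iff.rfl
  up h1 h2 := h2 h1

/-- the half-space of an edge -/
def hs (hX : Med X) {a b : V} (hab : X.Adj a b) : HS X := ⟨W X a b, a, b, hab, rfl, compl_W hX hab⟩

theorem eq_hs (hX : Med X) (h : HS X) {u v : V} (huv : X.Adj u v) (hu : u ∈ h.1) (hv : v ∉ h.1) : h = hs hX huv := by
  obtain ⟨a, b, hab, h1, _⟩ := h.2
  refine Subtype.ext ?_
  show h.1 = W X u v
  rw [h1] at hu hv ⊢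
  exact (W_eq hX hab huv hu hv).symm

theorem insert_eq (hX : Med X) {x x1 z : V} (hx : X.Adj x x1) (hd : X.dist x1 z < X.dist x z) :
    pr X z \ pr X x = insert (hs hX hx.symm) (pr X z \ pr X x1) ∧ hs hX hx.symm ∉ pr X z \ pr X x1 := by
  constructor
  · ext h
    constructor
    · rintro ⟨h1, h2⟩
      by_cases h3 : x1 ∈ h.1
      · exact Or.inl (eq_hs hX h hx.symm h3 h2)
      · exact Or.inr ⟨h1, h3⟩
    · rintro (rfl | ⟨h1, h2⟩)
      · refine ⟨?_, ?_⟩
        · show X.dist z x1 < X.dist z x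
          rw [SimpleGraph.dist_comm (u := z), SimpleGraph.dist_comm (u := z)]
          exact hd
        · exact right_notMem_W
      · refine ⟨h1, fun h3 => ?_⟩
        have h4 := eq_hs hX h hx h3 h2
        rw [h4] at h1
        have h5 : X.dist z x < X.dist z x1 := h1
        rw [SimpleGraph.dist_comm (u := z), SimpleGraph.dist_comm (u := z)] at h5
        omega
  · rintro ⟨_, h2⟩
    exact h2 (left_mem_W hx.symm)

/-- the number of the half-spaces which separate two vertices is the distance -/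
theorem count (hX : Med X) : ∀ (n : ℕ) (x z : V), X.dist x z = n →
    (pr X z \ pr X x).Finite ∧ (pr X z \ pr X x).ncard = n := by
  intro n
  induction n with
  | zero =>
    intro x z h
    rw [eq_of_dist hX.conn h, Set.sdiff_self]
    exact ⟨Set.finite_empty, Set.ncard_empty _⟩
  | succ n ih =>
    intro x z h
    have hne : x ≠ z := by
      rintro rfl
      rw [SimpleGraph.dist_self] at h
      omega
    obtain ⟨x1, hx, hd⟩ := first_edge hX.conn hne
    obtain ⟨h1, h2⟩ := insert_eq hX (z := z) hx (by omega)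
    obtain ⟨h3, h4⟩ := ih x1 z (by omega)
    rw [h1]
    refine ⟨h3.insert _, ?_⟩
    rw [Set.ncard_insert_of_notMem h2 h3, h4]

theorem fin_diff (hX : Med X) (x z : V) : (pr X z \ pr X x).Finite := (count hX _ x z rfl).1

theorem ncard_diff (hX : Med X) (x z : V) : (pr X z \ pr X x).ncard = X.dist x z := (count hX _ x z rfl).2

theorem pr_inj (hX : Med X) {x z : V} (h : pr X x = pr X z) : x = z := by
  refine eq_of_dist hX.conn ?_
  rw [← ncard_diff hX, h, Set.sdiff_self, Set.ncard_empty]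

/-- half-spaces are convex -/
theorem convex (hX : Med X) (h : HS X) {z w m : V} (hz : z ∈ h.1) (hw : w ∈ h.1)
    (hm : X.dist z m + X.dist m w = X.dist z w) : m ∈ h.1 := by
  by_contra hcon
  have h1 : st h ∈ pr X m \ pr X z := ⟨hcon, fun h2 => h2 hz⟩
  have h2 : pr X w \ pr X z ⊆ ((pr X m \ pr X z) \ {st h}) ∪ (pr X w \ pr X m) := by
    rintro k ⟨h3, h4⟩
    by_cases h5 : k ∈ pr X m
    · refine Or.inl ⟨⟨h5, h4⟩, ?_⟩
      rintro rfl
      exact h3 hw
    · exact Or.inr ⟨h3, h5⟩
  have h3 := Set.ncard_le_ncard h2 (((fin_diff hX z m).subset Set.sdiff_subset).union (fin_diff hX m w))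
  have h4 := Set.ncard_union_le ((pr X m \ pr X z) \ {st h}) (pr X w \ pr X m)
  have h5 := Set.ncard_sdiff_singleton_add_one h1 (fin_diff hX z m)
  rw [ncard_diff hX] at h3 h4 h5
  omega

/-- the first edge on the way to a half-space -/
theorem gate (hX : Med X) (h : HS X) {x : V} (hx : x ∉ h.1) : ∃ (x1 : V) (e : X.Adj x x1), h ≤ hs hX e.symm := by
  obtain ⟨z, hz, hmin⟩ := WellFounded.has_min (measure (fun w => X.dist x w)).wf h.1 (hs_nonempty h)
  have hmin' : ∀ w ∈ h.1, X.dist x z ≤ X.dist x w := fun w hw => not_lt.1 (hmin w hw)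
  have hne : x ≠ z := by
    rintro rfl
    exact hx hz
  obtain ⟨x1, e, hd⟩ := first_edge hX.conn hne
  refine ⟨x1, e, fun w hw => ?_⟩
  obtain ⟨m, ⟨h1, h2, h3⟩, _⟩ := hX.med x z w
  have h4 : m ∈ h.1 := convex hX h hz hw h2
  have h5 := hmin' m h4
  have h6 : X.dist m z = 0 := by omega
  have h7 := eq_of_dist hX.conn h6
  subst h7
  show X.dist w x1 < X.dist w x
  have h8 := dist_tri hX.conn x1 m w
  rw [SimpleGraph.dist_comm (u := w), SimpleGraph.dist_comm (u := w)]
  omega

/-- vertices of the pocset at finite distance from a principal one are principal -/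
theorem principal (hX : Med X) {U : Set (HS X)} (hU : IsVertex U) : ∀ (n : ℕ) (x : V), (U \ pr X x).Finite →
    (U \ pr X x).ncard = n → ∃ v, U = pr X v := by
  intro n
  induction n using Nat.strong_induction_on with
  | _ n ih =>
    intro x hf hn
    rcases (U \ pr X x).eq_empty_or_nonempty with h0 | ⟨h, hh⟩
    · refine ⟨x, Set.Subset.antisymm (Set.sdiff_eq_empty.1 h0) fun k hk => ?_⟩
      by_contra hcon
      have h1 : st k ∈ U := (hU.one k).2 hcon
      have h2 : st k ∈ pr X x := Set.sdiff_eq_empty.1 h0 h1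
      exact h2 hk
    · obtain ⟨x1, e, hle⟩ := gate hX h hh.2
      have hk : hs hX e.symm ∈ U := hU.up hh.1 hle
      have hkx : hs hX e.symm ∉ pr X x := right_notMem_W
      have hsub : U \ pr X x1 ⊆ (U \ pr X x) \ {hs hX e.symm} := by
        rintro k ⟨h1, h2⟩
        refine ⟨⟨h1, fun h3 => ?_⟩, ?_⟩
        · have h4 := eq_hs hX k e h3 h2
          have h5 : st (hs hX e.symm) = k := by
            rw [h4]
            refine Subtype.ext ?_
            show (W X x1 x)ᶜ = W X x x1
            exact compl_W hX e.symm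
          rw [← h5] at h1
          exact (hU.one _).1 h1 hk
        · rintro rfl
          exact h2 (left_mem_W e.symm)
      have hf1 : (U \ pr X x1).Finite := (hf.subset Set.sdiff_subset).subset hsub
      have h5 := Set.ncard_sdiff_singleton_add_one (show hs hX e.symm ∈ U \ pr X x from ⟨hk, hkx⟩) hf
      have h6 := Set.ncard_le_ncard hsub (hf.subset Set.sdiff_subset)
      exact ih _ (by omega) x1 hf1 rfl

/-- the base vertex -/
@[reducible] def basOf (hX : Med X) (x : V) : Bas (HS X) where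
  o := pr X x
  vtx := pr_vertex x
  fin_up := by
    intro h
    obtain ⟨z, hz⟩ := hs_nonempty h
    refine (fin_diff hX x z).subset ?_
    rintro k ⟨h1, h2⟩
    exact ⟨h1 hz, h2⟩

/-! ### cubes -/

section cube

variable {H : Type} [PartialOrder H] [Bas H]

theorem diff_diff (x y z : Vtx H) :
    z.U \ y.U = ((z.U \ x.U) \ (y.U \ x.U)) ∪ st '' ((y.U \ x.U) \ (z.U \ x.U)) := by
  ext h
  constructor
  · rintro ⟨h1, h2⟩
    by_cases hx : h ∈ x.U
    · refine Or.inr ⟨st h, ⟨⟨y.st_mem.2 h2, ?_⟩, ?_⟩, st_st h⟩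
      · rw [x.st_mem, not_not]
        exact hx
      · rintro ⟨h3, _⟩
        exact z.st_mem.1 h3 h1
    · exact Or.inl ⟨⟨h1, hx⟩, fun h3 => h2 h3.1⟩
  · rintro (⟨⟨h1, h2⟩, h3⟩ | ⟨k, ⟨⟨h1, h2⟩, h3⟩, rfl⟩)
    · exact ⟨h1, fun h4 => h3 ⟨h4, h2⟩⟩
    · refine ⟨z.st_mem.2 fun h4 => h3 ⟨h4, h2⟩, ?_⟩
      rw [y.st_mem, not_not]
      exact h1

theorem crs_symm {h k : H} (e : Crs h k) : Crs k h :=
  ⟨e.2.1, e.1, fun e' => e.2.2.1 (le_st_comm.1 e'), fun e' => e.2.2.2 (st_le_comm.1 e')⟩

theorem crs_st {h k : H} (e : Crs h k) : Crs (st h) k :=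
  ⟨fun e' => e.2.2.2 (st_le_comm.1 e'), fun e' => e.2.2.1 (le_st_comm.1 e'),
    fun e' => e.2.1 (Pool.Agent.H54.CV.st_le_iff.1 e'), fun e' => e.1 (Pool.Agent.H54.CV.st_le_iff.1 e')⟩

/-- pairwise crossing half-spaces give a cube -/
theorem cube {m : ℕ} (F : Fin m → H) (hF : ∀ i j, i ≠ j → Crs (F i) (F j)) :
    ∃ f : Finset (Fin m) → Vtx H, ∀ A B, ds (f A) (f B) = (symmDiff A B).card := by
  classical
  -- orient the half-spaces away from the base vertex
  obtain ⟨E, hE1, hE2⟩ : ∃ E : Fin m → H, (∀ i, E i ∉ (bs : Vtx H).U) ∧ ∀ i j, i ≠ j → Crs (E i) (E j) := by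
    refine ⟨fun i => if F i ∈ (bs : Vtx H).U then st (F i) else F i, fun i => ?_, fun i j hij => ?_⟩
    · by_cases h : F i ∈ (bs : Vtx H).U
      · simp only [h, if_true]
        rw [(bs : Vtx H).st_mem, not_not]
        exact h
      · simp only [h, if_false, not_false_eq_true]
    · have h0 := hF i j hij
      by_cases h : F i ∈ (bs : Vtx H).U <;> by_cases h' : F j ∈ (bs : Vtx H).U <;>
        simp only [h, h', if_true, if_false]
      · exact crs_st (crs_symm (crs_st (crs_symm h0)))
      · exact crs_st h0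
      · exact crs_symm (crs_st (crs_symm h0))
      · exact h0
  have hnf : ∀ i j, ¬ E i ≤ st (E j) := by
    intro i j h
    by_cases hij : i = j
    · subst hij
      exact Poc.not_le _ h
    · exact (hE2 i j hij).2.2.1 h
  have hlt : ∀ i j, ¬ E i < E j := by
    intro i j h
    by_cases hij : i = j
    · subst hij
      exact lt_irrefl _ h
    · exact (hE2 i j hij).1 h.le
  -- the corner
  obtain ⟨y, hy⟩ := Pool.Agent.H54.CV.exists_mv (bs : Vtx H) (U := {k | k ∉ (bs : Vtx H).U ∧ ∃ i, E i < k})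
    (by
      refine (Set.finite_iUnion (fun i => Bas.fin_up (E i))).subset ?_
      rintro k ⟨h1, i, h2⟩
      exact Set.mem_iUnion.2 ⟨i, h2.le, h1⟩)
    (fun k hk => hk.1)
    (fun k hk k' hle hk' => by
      obtain ⟨_, i, h2⟩ := hk
      exact ⟨hk', i, lt_of_lt_of_le h2 hle⟩)
    (by
      rintro k ⟨_, i, h2⟩ k' ⟨_, j, h4⟩ hle
      exact hnf i j ((h2.le.trans hle).trans (st_le h4.le)))
  have hEy : ∀ i, E i ∉ y.U := by
    intro i h
    have h1 : E i ∈ y.U \ (bs : Vtx H).U := ⟨h, hE1 i⟩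
    rw [hy] at h1
    obtain ⟨_, j, h2⟩ := h1
    exact hlt j i h2
  have hgt : ∀ i k, E i < k → k ∈ y.U := by
    intro i k hk
    by_contra hcon
    by_cases hb : k ∈ (bs : Vtx H).U
    · have h1 : st k ∈ y.U \ (bs : Vtx H).U := by
        refine ⟨y.st_mem.2 hcon, ?_⟩
        rw [(bs : Vtx H).st_mem, not_not]
        exact hb
      rw [hy] at h1
      obtain ⟨_, j, h2⟩ := h1
      exact hnf j i (h2.le.trans (st_le hk.le))
    · have h1 : k ∈ y.U \ (bs : Vtx H).U := by
        rw [hy]
        exact ⟨hb, i, hk⟩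
      exact hcon h1.1
  have hcor : ∀ A : Finset (Fin m), ∃ z : Vtx H, z.U \ y.U = E '' A := by
    intro A
    refine Pool.Agent.H54.CV.exists_mv y (A.finite_toSet.image E) ?_ ?_ ?_
    · rintro _ ⟨i, _, rfl⟩
      exact hEy i
    · rintro _ ⟨i, hi, rfl⟩ k hle hk
      rcases eq_or_lt_of_le hle with h | h
      · exact ⟨i, hi, h⟩
      · exact absurd (hgt i k h) hk
    · rintro _ ⟨i, _, rfl⟩ _ ⟨j, _, rfl⟩
      exact hnf i j
  choose f hf using hcor
  have hEinj : Function.Injective E := by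
    intro i j h
    by_contra hne
    exact (hE2 i j hne).1 h.le
  refine ⟨f, fun A B => ?_⟩
  have h1 : (f B).U \ (f A).U = (((B \ A).image E ∪ ((A \ B).image E).image st : Finset H) : Set H) := by
    rw [diff_diff y (f A) (f B), hf, hf]
    push_cast
    rw [Set.image_sdiff hEinj, Set.image_sdiff hEinj]
  rw [ds, h1, Set.ncard_coe_finset, Finset.card_union_of_disjoint,
    Finset.card_image_of_injective _ Pool.Agent.H54.CV.st_injective, Finset.card_image_of_injective _ hEinj,
    Finset.card_image_of_injective _ hEinj, symmDiff_comm, symmDiff_def, Finset.sup_eq_union,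
    Finset.card_union_of_disjoint]
  · exact disjoint_sdiff_sdiff
  · rw [Finset.disjoint_left]
    intro a ha hb
    obtain ⟨b, hb', rfl⟩ := Finset.mem_image.1 hb
    obtain ⟨i, _, hi⟩ := Finset.mem_image.1 ha
    obtain ⟨j, _, hj⟩ := Finset.mem_image.1 hb'
    refine hnf i j ?_
    rw [hi, hj]

end cube

/-- a median graph without isometric `(n+1)`-cubes has dimension at most `n` -/
theorem dim_of_cube (hX : Med X) {n : ℕ}
    (hc : ¬ ∃ f : Finset (Fin (n + 1)) → V, ∀ A B, X.dist (f A) (f B) = (symmDiff A B).card) : Dim (HS X) n := by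
  classical
  intro F hF
  by_contra hcon
  rw [not_le] at hcon
  obtain ⟨F', hF', hF'c⟩ := Finset.exists_subset_card_eq (n := n + 1) (s := F) hcon
  have e := Finset.equivFinOfCardEq hF'c
  obtain ⟨x⟩ := hX.conn.nonempty
  let _ : Bas (HS X) := basOf hX x
  obtain ⟨f, hf⟩ := cube (fun i => ((e.symm i : F') : HS X)) (by
    intro i j hij
    refine hF _ (hF' (e.symm i).2) _ (hF' (e.symm j).2) fun h => hij ?_
    exact e.symm.injective (Subtype.ext h))
  have hpr : ∀ y : Vtx (HS X), ∃ v, y.U = pr X v := fun y => principal hX y.isV _ x y.fin rfl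
  choose g hg using hpr
  refine hc ⟨fun A => g (f A), fun A B => ?_⟩
  rw [← hf A B, ds, hg, hg, ncard_diff hX]

end Pool.Agent.H54.MG
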