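import Pool.Agent.H54.MG.Pc
import Mathlib.Algebra.Group.Action.Pointwise.Set.Basic

/-!
# [CCA MG3] Groups acting on median graphs
-/

set_option autoImplicit false

namespace Pool.Agent.H54.MG

open Pool.Agent.H37.CC
open scoped Pointwise

/-- `G` acts by automorphisms of the graph -/
class GAct (G : Type) {V : Type} [Group G] [MulAction G V] (X : SimpleGraph V) : Prop where
  adj : ∀ (g : G) {a b : V}, X.Adj a b → X.Adj (g • a) (g • b)

variable {G V : Type} [Group G] [MulAction G V] {X : SimpleGraph V} [GAct G X]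

theorem dist_smul_le (hc : X.Connected) (g : G) (a b : V) : X.dist (g • a) (g • b) ≤ X.dist a b := by
  obtain ⟨p, hp⟩ := hc.exists_walk_length_eq_dist a b
  let f : X →g X := ⟨fun z => g • z, fun h => GAct.adj g h⟩
  rw [← hp, ← SimpleGraph.Walk.length_map f p]
  exact SimpleGraph.dist_le (p.map f)

theorem dist_smul (hc : X.Connected) (g : G) (a b : V) : X.dist (g • a) (g • b) = X.dist a b := by
  refine le_antisymm (dist_smul_le hc g a b) ?_
  have h1 := dist_smul_le hc g⁻¹ (g • a) (g • b)
  rwa [inv_smul_smul, inv_smul_smul] at h1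

theorem W_smul (hc : X.Connected) (g : G) (a b : V) : {z | g⁻¹ • z ∈ W X a b} = W X (g • a) (g • b) := by
  ext z
  show X.dist (g⁻¹ • z) a < X.dist (g⁻¹ • z) b ↔ X.dist z (g • a) < X.dist z (g • b)
  have h1 := dist_smul hc g (g⁻¹ • z) a
  have h2 := dist_smul hc g (g⁻¹ • z) b
  rw [smul_inv_smul] at h1 h2
  rw [h1, h2]

/-- the action on the half-spaces -/
@[reducible] def actOf (G : Type) {V : Type} [Group G] [MulAction G V] {X : SimpleGraph V} [GAct G X]
    (hc : X.Connected) : MulAction G (HS X) where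
  smul g h := ⟨{z | g⁻¹ • z ∈ h.1}, by
    obtain ⟨a, b, hab, h1, h2⟩ := h.2
    refine ⟨g • a, g • b, GAct.adj g hab, ?_, ?_⟩
    · rw [← W_smul hc g a b, h1]
    · rw [← W_smul hc g b a, ← h2]
      rfl⟩
  one_smul h := by
    refine Subtype.ext (Set.ext fun z => ?_)
    show (1 : G)⁻¹ • z ∈ h.1 ↔ z ∈ h.1
    rw [inv_one, one_smul]
  mul_smul g g' h := by
    refine Subtype.ext (Set.ext fun z => ?_)
    show (g * g')⁻¹ • z ∈ h.1 ↔ g'⁻¹ • g⁻¹ • z ∈ h.1
    rw [mul_inv_rev, mul_smul]

theorem pactOf (hc : X.Connected) : @PAct G (HS X) _ _ _ (actOf G hc) :=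
  let _ := actOf G hc
  { smul_le := by
      intro g h k
      constructor
      · intro h1 z hz
        have h2 : g • z ∈ (g • h).1 := by
          show g⁻¹ • g • z ∈ h.1
          rw [inv_smul_smul]
          exact hz
        have h3 : g⁻¹ • g • z ∈ k.1 := h1 h2
        rwa [inv_smul_smul] at h3
      · intro h1 z hz
        exact h1 hz
    smul_st := by
      intro g h
      rfl }

theorem smul_pr (hc : X.Connected) (g : G) (v : V) :
    let _ := actOf G hc
    g • pr X v = pr X (g • v) := by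
  let _ := actOf G hc
  ext h
  rw [Set.mem_smul_set_iff_inv_smul_mem]
  show (g⁻¹)⁻¹ • v ∈ h.1 ↔ g • v ∈ h.1
  rw [inv_inv]

theorem stab_pr (hX : Med X) (v : V) :
    let _ := actOf G hX.conn
    MulAction.stabilizer G (pr X v) = MulAction.stabilizer G v := by
  let _ := actOf G hX.conn
  ext g
  rw [MulAction.mem_stabilizer_iff, MulAction.mem_stabilizer_iff, smul_pr hX.conn]
  exact ⟨fun h => pr_inj hX h, fun h => by rw [h]⟩

end Pool.Agent.H54.MG
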