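import Mathlib.Combinatorics.SimpleGraph.Metric
import Mathlib.Tactic

/-!
# [CCA MG1] Median graphs: half-spaces, crossing edges

`Med X`: the graph `X` is median (the `1`-skeleton of a CAT(0) cube complex). `W X a b`: the vertices which are nearer to `a` than to `b`.
`W_eq_of_edge`: if the edge `u v` leaves `W X a b` then `W X u v = W X a b`.
-/

set_option autoImplicit false

namespace Pool.Agent.H54.MG

variable {V : Type*}

/-- median graphs -/
structure Med (X : SimpleGraph V) : Prop where
  conn : X.Connected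
  med : ∀ x y z : V, ∃! m : V, X.dist x m + X.dist m y = X.dist x y ∧ X.dist y m + X.dist m z = X.dist y z ∧
    X.dist x m + X.dist m z = X.dist x z

/-- the vertices which are nearer to `a` than to `b` -/
def W (X : SimpleGraph V) (a b : V) : Set V := {z | X.dist z a < X.dist z b}

theorem mem_W {X : SimpleGraph V} {a b z : V} : z ∈ W X a b ↔ X.dist z a < X.dist z b := Iff.rfl

section conn

variable {X : SimpleGraph V}

theorem dist_tri (hc : X.Connected) (x y z : V) : X.dist x z ≤ X.dist x y + X.dist y z := hc.dist_triangle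

theorem dist_adj {a b : V} (h : X.Adj a b) : X.dist a b = 1 := SimpleGraph.dist_eq_one_iff_adj.2 h

theorem eq_of_dist (hc : X.Connected) {a b : V} (h : X.dist a b = 0) : a = b := hc.dist_eq_zero_iff.1 h

theorem adj_le (hc : X.Connected) {a b : V} (h : X.Adj a b) (z : V) :
    X.dist z a ≤ X.dist z b + 1 ∧ X.dist z b ≤ X.dist z a + 1 := by
  have h1 := dist_tri hc z b a
  have h2 := dist_tri hc z a b
  rw [dist_adj h.symm] at h1
  rw [dist_adj h] at h2
  exact ⟨h1, h2⟩

/-- the first edge of a geodesic -/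
theorem first_edge (hc : X.Connected) {x y : V} (hne : x ≠ y) : ∃ x1, X.Adj x x1 ∧ X.dist x1 y + 1 = X.dist x y := by
  obtain ⟨p, hp⟩ := hc.exists_walk_length_eq_dist x y
  cases p with
  | nil => exact absurd rfl hne
  | @cons _ x1 _ h q =>
    refine ⟨x1, h, ?_⟩
    rw [SimpleGraph.Walk.length_cons] at hp
    have h1 := SimpleGraph.dist_le q
    have h2 := dist_tri hc x x1 y
    rw [dist_adj h] at h2
    omega

theorem left_mem_W {a b : V} (h : X.Adj a b) : a ∈ W X a b := by
  rw [mem_W, SimpleGraph.dist_self, dist_adj h]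
  exact Nat.one_pos

theorem right_notMem_W {a b : V} : b ∉ W X a b := by
  rw [mem_W, SimpleGraph.dist_self]
  exact Nat.not_lt_zero _

end conn

section med

variable {X : SimpleGraph V} (hX : Med X)
include hX

/-- median graphs are bipartite -/
theorem bip {a b : V} (h : X.Adj a b) (z : V) : X.dist z a ≠ X.dist z b := by
  obtain ⟨m, ⟨h1, h2, h3⟩, _⟩ := hX.med a b z
  rw [dist_adj h] at h1
  have ha : X.dist a b = 1 := dist_adj h
  rcases Nat.eq_zero_or_pos (X.dist a m) with h0 | h0
  · have h4 := eq_of_dist hX.conn h0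
    rw [← h4, SimpleGraph.dist_comm (u := b) (v := a), ha] at h2
    rw [SimpleGraph.dist_comm (u := z) (v := a), SimpleGraph.dist_comm (u := z) (v := b)]
    omega
  · have h4 : X.dist m b = 0 := by omega
    have h5 := eq_of_dist hX.conn h4
    rw [h5, ha] at h3
    rw [SimpleGraph.dist_comm (u := z) (v := a), SimpleGraph.dist_comm (u := z) (v := b)]
    omega

theorem mem_W_iff {a b : V} (h : X.Adj a b) {z : V} : z ∈ W X a b ↔ X.dist z a + 1 = X.dist z b := by
  rw [mem_W]
  have h1 := adj_le hX.conn h z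
  constructor
  · intro h2
    omega
  · intro h2
    omega

theorem notMem_W_iff {a b : V} (h : X.Adj a b) {z : V} : z ∉ W X a b ↔ z ∈ W X b a := by
  rw [mem_W, mem_W, not_lt]
  have h1 := bip hX h z
  constructor
  · intro h2
    omega
  · intro h2
    omega

theorem compl_W {a b : V} (h : X.Adj a b) : (W X a b)ᶜ = W X b a := by
  ext z
  rw [Set.mem_compl_iff, notMem_W_iff hX h]

theorem quadrangle {z u v w : V} (huw : X.Adj u w) (hvw : X.Adj v w) (huv : u ≠ v) {k : ℕ} (hu : X.dist z u = k)
    (hv : X.dist z v = k) : ∃ x, X.Adj x u ∧ X.Adj x v ∧ X.dist z x + 1 = k := by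
  have h1 : X.dist u v ≤ 2 := by
    have := dist_tri hX.conn u w v
    rw [dist_adj huw, dist_adj hvw.symm] at this
    exact this
  have h2 : X.dist u v ≠ 0 := fun h => huv (eq_of_dist hX.conn h)
  have h3 : X.dist u v ≠ 1 := fun h => bip hX (SimpleGraph.dist_eq_one_iff_adj.1 h) z (by rw [hu, hv])
  have h4 : X.dist u v = 2 := by omega
  obtain ⟨m, ⟨h5, h6, h7⟩, _⟩ := hX.med u v z
  rw [SimpleGraph.dist_comm (u := v) (v := z), hv, SimpleGraph.dist_comm (u := v) (v := m)] at h6
  rw [SimpleGraph.dist_comm (u := u) (v := z), hu] at h7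
  refine ⟨m, ?_, ?_, ?_⟩
  · rw [← SimpleGraph.dist_eq_one_iff_adj, SimpleGraph.dist_comm]
    omega
  · rw [← SimpleGraph.dist_eq_one_iff_adj]
    omega
  · rw [SimpleGraph.dist_comm]
    omega

/-- opposite edges of a square -/
theorem square {u v v' u' : V} (h1 : X.Adj u v) (h2 : X.Adj v v') (h3 : X.Adj v' u') (h4 : X.Adj u' u) (h5 : u ≠ v')
    (h6 : u' ≠ v) : W X u v ⊆ W X u' v' := by
  intro z hz
  by_contra hcon
  rw [notMem_W_iff hX h3.symm, mem_W_iff hX h3] at hcon
  rw [mem_W_iff hX h1] at hz
  have b1 := bip hX h4 z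
  have b2 := bip hX h2 z
  have a1 := adj_le hX.conn h4 z
  have a2 := adj_le hX.conn h2 z
  have e1 : X.dist z v' = X.dist z u := by omega
  have e2 : X.dist z u' = X.dist z v := by omega
  have h7 : X.dist u' v = 2 := by
    have t1 := dist_tri hX.conn u' u v
    rw [dist_adj h4, dist_adj h1] at t1
    have t2 : X.dist u' v ≠ 0 := fun h => h6 (eq_of_dist hX.conn h)
    have t3 : X.dist u' v ≠ 1 := fun h => bip hX (SimpleGraph.dist_eq_one_iff_adj.1 h) z e2
    omega
  obtain ⟨m, _, hm⟩ := hX.med u' v z
  have c : ∀ x y : V, X.dist x y = X.dist y x := fun x y => SimpleGraph.dist_comm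
  have m1 := hm u ⟨by rw [dist_adj h4, dist_adj h1, h7], by rw [dist_adj h1.symm, c u z, c v z]; omega,
    by rw [dist_adj h4, c u z, c u' z]; omega⟩
  have m2 := hm v' ⟨by rw [dist_adj h3.symm, dist_adj h2.symm, h7], by rw [dist_adj h2, c v' z, c v z]; omega,
    by rw [dist_adj h3.symm, c v' z, c u' z]; omega⟩
  exact h5 (m1.trans m2.symm)

/-- a half-space is determined by every edge which leaves it -/
theorem W_eq_of_edge {a b : V} (hab : X.Adj a b) : ∀ (k : ℕ) {u v : V}, X.Adj u v → u ∈ W X a b → v ∈ W X b a →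
    X.dist u a = k → W X u v = W X a b := by
  have c : ∀ x y : V, X.dist x y = X.dist y x := fun x y => SimpleGraph.dist_comm
  intro k
  induction k with
  | zero =>
    intro u v huv hu hv hk
    rw [mem_W_iff hX hab] at hu
    rw [mem_W_iff hX hab.symm] at hv
    have h1 := eq_of_dist hX.conn hk
    subst h1
    have h2 := adj_le hX.conn huv u
    rw [SimpleGraph.dist_self] at h2
    have h3 : X.dist v b = 0 := by
      rw [c v u, dist_adj huv] at hv
      omega
    rw [eq_of_dist hX.conn h3]
  | succ k ih =>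
    intro u v huv hu hv hk
    rw [mem_W_iff hX hab] at hu
    rw [mem_W_iff hX hab.symm] at hv
    have hne : u ≠ a := by
      rintro rfl
      rw [SimpleGraph.dist_self] at hk
      omega
    obtain ⟨u', hu', hd⟩ := first_edge hX.conn hne
    have t1 := adj_le hX.conn huv a
    have t2 := adj_le hX.conn huv b
    have t3 := adj_le hX.conn hu' b
    have t4 := adj_le hX.conn hab u'
    rw [c a u, c a v] at t1
    rw [c b u, c b v] at t2
    rw [c b u, c b u'] at t3
    have e1 : X.dist v b = k + 1 := by omega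
    have e2 : X.dist u' a = k := by omega
    have e3 : X.dist u' b = k + 1 := by omega
    have hu'v : u' ≠ v := by
      rintro rfl
      omega
    obtain ⟨v', hv1, hv2, hv3⟩ := quadrangle hX (z := b) hu'.symm huv.symm hu'v (by rw [c b u', e3]) (by rw [c b v, e1])
    have t5 := adj_le hX.conn hv2 a
    have t6 := adj_le hX.conn hab v'
    rw [c a v', c a v] at t5
    rw [c b v'] at hv3
    have e4 : X.dist v' b = k := by omega
    have e5 : X.dist v' a = k + 1 := by omega
    have h1 := ih hv1.symm ((mem_W_iff hX hab).2 (by omega)) ((mem_W_iff hX hab.symm).2 (by omega)) e2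
    have huv' : u ≠ v' := by
      rintro rfl
      omega
    rw [← h1]
    refine Set.Subset.antisymm ?_ ?_
    · exact square hX huv hv2.symm hv1 hu'.symm huv' hu'v
    · exact square hX hv1.symm hv2 huv.symm hu' hu'v huv'

theorem W_eq {a b u v : V} (hab : X.Adj a b) (huv : X.Adj u v) (hu : u ∈ W X a b) (hv : v ∉ W X a b) :
    W X u v = W X a b :=
  W_eq_of_edge hX hab _ huv hu ((notMem_W_iff hX hab).1 hv) rfl

end med

end Pool.Agent.H54.MG
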